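import Pool.Agent.H458.AG.Loc

/-!
# An even integral lattice in a split quadratic space is in a standard unimodular lattice
-/

set_option autoImplicit false
set_option linter.all false

open Polynomial Matrix

namespace Pool.Agent.H294.AG458

open Pool.Agent.H458.AG

section sums

variable {k : Type} [Field k]

/-- packing of two scalars and a vector -/
def pk {n : ℕ} (a b : k) (u : Fin n → k) (i : Fin (n + 2)) : k :=
  if i.1 = 0 then a else if h : i.1 - 1 < n then u ⟨i.1 - 1, h⟩ else b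

lemma pk_zero {n : ℕ} (a b : k) (u : Fin n → k) : pk a b u 0 = a := by
  unfold pk
  rw [if_pos (by rfl)]

lemma pk_mid {n : ℕ} (a b : k) (u : Fin n → k) (i : Fin n) : pk a b u (Fin.succ (Fin.castSucc i)) = u i := by
  unfold pk
  rw [if_neg (by simp), dif_pos (by simp)]
  congr 1

lemma pk_last {n : ℕ} (a b : k) (u : Fin n → k) : pk a b u (Fin.succ (Fin.last n)) = b := by
  unfold pk
  rw [if_neg (by simp), dif_neg (by simp)]

lemma pk_add {n : ℕ} (a b a' b' : k) (u u' : Fin n → k) :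
    pk (a + a') (b + b') (u + u') = pk a b u + pk a' b' u' := by
  funext i
  simp only [pk, Pi.add_apply]
  split_ifs <;> rfl

lemma pk_smul {n : ℕ} (c a b : k) (u : Fin n → k) :
    pk (c * a) (c * b) (c • u) = c • pk a b u := by
  funext i
  simp only [pk, Pi.smul_apply, smul_eq_mul]
  split_ifs <;> rfl

lemma sum_two {n : ℕ} (F : Fin (n + 2) → k) :
    ∑ i, F i = F 0 + F (Fin.succ (Fin.last n)) + ∑ i : Fin n, F (Fin.succ (Fin.castSucc i)) := by
  rw [Fin.sum_univ_succ, Fin.sum_univ_castSucc]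
  ring

lemma ga_mul (g : ℕ) (u w : Fin (2 * g + 1) → k) :
    u ⬝ᵥ (GA g k *ᵥ w) = ∑ i, u i * w (Fin.rev i) := by
  unfold dotProduct
  refine Finset.sum_congr rfl fun i _ => ?_
  congr 1
  unfold mulVec dotProduct
  rw [Finset.sum_eq_single (Fin.rev i)]
  · have : (i : ℕ) + (Fin.rev i : ℕ) = 2 * g := by
      rw [Fin.val_rev]
      omega
    simp only [GA, Matrix.of_apply]
    rw [if_pos this, one_mul]
  · intro j _ hj
    have : ¬ ((i : ℕ) + j = 2 * g) := by
      intro h
      apply hj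
      apply Fin.ext
      rw [Fin.val_rev]
      omega
    simp only [GA, Matrix.of_apply]
    rw [if_neg this, zero_mul]
  · intro h
    exact absurd (Finset.mem_univ _) h

lemma ga_step (g : ℕ) (a b a' b' : k) (u u' : Fin (2 * g + 1) → k) :
    (pk a b u : Fin (2 * (g + 1) + 1) → k) ⬝ᵥ (GA (g + 1) k *ᵥ (pk a' b' u' : Fin (2 * (g + 1) + 1) → k)) =
      a * b' + b * a' + u ⬝ᵥ (GA g k *ᵥ u') := by
  rw [ga_mul g]
  refine (ga_mul (g + 1) (pk a b u) (pk a' b' u')).trans ?_
  have h := sum_two (n := 2 * g + 1) (fun i => pk a b u i * pk a' b' u' (Fin.rev i))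
  refine Eq.trans h ?_
  have e1 : Fin.rev (0 : Fin (2 * g + 1 + 2)) = Fin.succ (Fin.last (2 * g + 1)) := by
    apply Fin.ext
    simp [Fin.val_rev]
  have e2 : Fin.rev (Fin.succ (Fin.last (2 * g + 1))) = (0 : Fin (2 * g + 1 + 2)) := by
    apply Fin.ext
    simp [Fin.val_rev]
  have e3 : ∀ i : Fin (2 * g + 1), Fin.rev (Fin.succ (Fin.castSucc i)) =
      (Fin.succ (Fin.castSucc (Fin.rev i)) : Fin (2 * g + 1 + 2)) := by
    intro i
    apply Fin.ext
    simp only [Fin.val_rev, Fin.val_succ, Fin.val_castSucc]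
    omega
  simp only [e1, e2, e3, pk_zero, pk_last, pk_mid]

end sums

section lin

variable {k : Type} [Field k] {V : Type} [AddCommGroup V] [Module k V]

/-- the form is nondegenerate -/
lemma nondeg {g : ℕ} {B : LinearMap.BilinForm k V} (hsym : ∀ x y, B x y = B y x) (hD : Dsc g B)
    (x : V) (hx : ∀ y, B x y = 0) : x = 0 := by
  obtain ⟨b, s, hs, hdet⟩ := hD
  have h1 : (LinearMap.BilinForm.toMatrix b B).det ≠ 0 := by
    have e : LinearMap.BilinForm.toMatrix b B = Matrix.of fun i j => B (b i) (b j) := by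
      ext i j
      rw [LinearMap.BilinForm.toMatrix_apply]
      rfl
    rw [e, hdet]
    exact mul_ne_zero (pow_ne_zero _ (by simp)) (pow_ne_zero _ hs)
  have h2 := LinearMap.BilinForm.nondegenerate_of_det_ne_zero B b h1
  exact h2.1 x hx

/-- the complement of a hyperbolic plane -/
def Vp (B : LinearMap.BilinForm k V) (x y : V) : Submodule k V := LinearMap.ker (B x) ⊓ LinearMap.ker (B y)

lemma mem_Vp {B : LinearMap.BilinForm k V} {x y z : V} : z ∈ Vp B x y ↔ B x z = 0 ∧ B y z = 0 := by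
  unfold Vp
  rw [Submodule.mem_inf, LinearMap.mem_ker, LinearMap.mem_ker]

/-- the projection -/
def pr (B : LinearMap.BilinForm k V) (x y : V) (hxx : B x x = 0) (hyy : B y y = 0) (hxy : B x y = 1)
    (hyx : B y x = 1) : V →ₗ[k] Vp B x y :=
  LinearMap.codRestrict (Vp B x y) (LinearMap.id - (B y).smulRight x - (B x).smulRight y) (by
    intro z
    rw [mem_Vp]
    simp only [LinearMap.sub_apply, LinearMap.id_apply, LinearMap.smulRight_apply, map_sub, map_smul,
      smul_eq_mul, hxx, hyy, hxy, hyx]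
    constructor <;> ring)

lemma pr_val (B : LinearMap.BilinForm k V) (x y : V) (hxx : B x x = 0) (hyy : B y y = 0) (hxy : B x y = 1)
    (hyx : B y x = 1) (z : V) : (pr B x y hxx hyy hxy hyx z : V) = z - B y z • x - B x z • y := rfl

/-- the decomposition -/
def dec (B : LinearMap.BilinForm k V) (x y : V) (hxx : B x x = 0) (hyy : B y y = 0) (hxy : B x y = 1)
    (hyx : B y x = 1) : V ≃ₗ[k] (k × k) × Vp B x y where
  toFun z := ((B y z, B x z), pr B x y hxx hyy hxy hyx z)
  map_add' z w := by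
    simp only [map_add, Prod.mk_add_mk]
  map_smul' c z := by
    simp only [map_smul, smul_eq_mul, RingHom.id_apply, Prod.smul_mk]
  invFun p := p.1.1 • x + p.1.2 • y + p.2.1
  left_inv z := by
    simp only [pr_val]
    abel
  right_inv p := by
    obtain ⟨⟨a, b⟩, ⟨w, hw⟩⟩ := p
    obtain ⟨h1, h2⟩ := mem_Vp.1 hw
    have e1 : B y (a • x + b • y + w) = a := by
      rw [map_add, map_add, map_smul, map_smul, hyx, hyy, h2]
      simp
    have e2 : B x (a • x + b • y + w) = b := by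
      rw [map_add, map_add, map_smul, map_smul, hxx, hxy, h1]
      simp
    refine Prod.ext (Prod.ext e1 e2) (Subtype.ext ?_)
    simp only [pr_val]
    rw [e1, e2]
    abel

lemma dec_symm (B : LinearMap.BilinForm k V) (x y : V) (hxx : B x x = 0) (hyy : B y y = 0)
    (hxy : B x y = 1) (hyx : B y x = 1) (p : (k × k) × Vp B x y) :
    (dec B x y hxx hyy hxy hyx).symm p = p.1.1 • x + p.1.2 • y + p.2.1 := rfl

lemma rank_step {g : ℕ} {B : LinearMap.BilinForm k V} (hr : Module.finrank k V = 2 * (g + 1) + 1)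
    [FiniteDimensional k V] (x y : V) (hxx : B x x = 0) (hyy : B y y = 0) (hxy : B x y = 1)
    (hyx : B y x = 1) : Module.finrank k (Vp B x y) = 2 * g + 1 := by
  have h := (dec B x y hxx hyy hxy hyx).finrank_eq
  rw [Module.finrank_prod, Module.finrank_prod, Module.finrank_self, hr] at h
  omega

lemma dsc_step {g : ℕ} {B : LinearMap.BilinForm k V} (hsym : ∀ x y, B x y = B y x) (hD : Dsc (g + 1) B)
    (x y : V) (hxx : B x x = 0) (hyy : B y y = 0) (hxy : B x y = 1) (hyx : B y x = 1) :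
    Dsc g (B.restrict (Vp B x y)) := by
  obtain ⟨b, s, hs, hdet⟩ := hD
  have hfin : FiniteDimensional k V := Module.Basis.finiteDimensional_of_finite b
  have hrank : Module.finrank k V = 2 * (g + 1) + 1 := by
    rw [Module.finrank_eq_card_basis b, Fintype.card_fin]
  have hr' := rank_step hrank x y hxx hyy hxy hyx
  have b' := Module.finBasisOfFinrankEq k (Vp B x y) hr'
  obtain ⟨c, hc⟩ : ∃ c, c = ((Module.Basis.finTwoProd k).prod b').map (dec B x y hxx hyy hxy hyx).symm :=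
    ⟨_, rfl⟩
  have c0 : c (Sum.inl 0) = x := by
    rw [hc, Module.Basis.map_apply, Module.Basis.prod_apply, dec_symm]
    simp
  have c1 : c (Sum.inl 1) = y := by
    rw [hc, Module.Basis.map_apply, Module.Basis.prod_apply, dec_symm]
    simp
  have c2 : ∀ i, c (Sum.inr i) = b' i := by
    intro i
    rw [hc, Module.Basis.map_apply, Module.Basis.prod_apply, dec_symm]
    simp
  have hb' : ∀ i, B x (b' i) = 0 ∧ B y (b' i) = 0 := fun i => mem_Vp.1 (b' i).2
  have hb'' : ∀ i, B (b' i) x = 0 ∧ B (b' i) y = 0 := fun i =>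
    ⟨(hsym _ _).trans (hb' i).1, (hsym _ _).trans (hb' i).2⟩
  obtain ⟨G', hG'⟩ : ∃ G', G' = LinearMap.BilinForm.toMatrix b' (B.restrict (Vp B x y)) := ⟨_, rfl⟩
  have hG : LinearMap.BilinForm.toMatrix c B =
      Matrix.fromBlocks !![(0 : k), 1; 1, 0] 0 0 G' := by
    ext i j
    rw [LinearMap.BilinForm.toMatrix_apply]
    rcases i with i | i <;> rcases j with j | j
    · rw [Matrix.fromBlocks_apply₁₁]
      fin_cases i <;> fin_cases j <;> simp [c0, c1, hxx, hyy, hxy, hyx]
    · rw [Matrix.fromBlocks_apply₁₂, c2]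
      fin_cases i <;> simp [c0, c1, (hb' j).1, (hb' j).2]
    · rw [Matrix.fromBlocks_apply₂₁, c2]
      fin_cases j <;> simp [c0, c1, (hb'' i).1, (hb'' i).2]
    · rw [Matrix.fromBlocks_apply₂₂, c2, c2, hG', LinearMap.BilinForm.toMatrix_apply]
      rfl
  have hdG : (LinearMap.BilinForm.toMatrix c B).det = - G'.det := by
    rw [hG, Matrix.det_fromBlocks_zero₂₁, Matrix.det_fin_two]
    simp
  obtain ⟨b1, hb1⟩ : ∃ b1, b1 = b.reindex (b.indexEquiv c) := ⟨_, rfl⟩
  have hd1 : (LinearMap.BilinForm.toMatrix b1 B).det = (-1) ^ (g + 1) * s ^ 2 := by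
    have e : LinearMap.BilinForm.toMatrix b1 B =
        (Matrix.of fun i j => B (b i) (b j)).submatrix (b.indexEquiv c).symm (b.indexEquiv c).symm := by
      ext i j
      rw [LinearMap.BilinForm.toMatrix_apply, hb1, Module.Basis.reindex_apply, Module.Basis.reindex_apply]
      rfl
    rw [e, Matrix.det_submatrix_equiv_self, hdet]
  have hP := LinearMap.BilinForm.toMatrix_mul_basis_toMatrix (b := b1) c B
  have hP' := congrArg Matrix.det hP
  rw [Matrix.det_mul, Matrix.det_mul, Matrix.det_transpose, hdG, hd1] at hP'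
  have hPn : (b1.toMatrix c).det ≠ 0 := by
    intro h
    have h2 := congrArg Matrix.det (Module.Basis.toMatrix_mul_toMatrix_flip b1 c)
    rw [Matrix.det_mul, h, zero_mul, Matrix.det_one] at h2
    exact zero_ne_one h2
  refine ⟨b', s * (b1.toMatrix c).det, mul_ne_zero hs hPn, ?_⟩
  have e2 : (Matrix.of fun i j => (B.restrict (Vp B x y)) (b' i) (b' j)) = G' := by
    rw [hG']
    ext i j
    rw [LinearMap.BilinForm.toMatrix_apply]
    rfl
  rw [e2]
  have e3 : G'.det = -(- G'.det) := by ring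
  rw [e3, ← hP']
  ring

lemma sum_oneF {W : Type} [AddCommMonoid W] (F : Fin (2 * 0 + 1) → W) : ∑ i, F i = F 0 :=
  Fin.sum_univ_one F

lemma base {v : Valuation k (WithZero (Multiplicative ℤ))} {B : LinearMap.BilinForm k V}
    (hD : Dsc 0 B) {M : Set V} (hM : Itg v B M) :
    ∃ Λ : V ≃ₗ[k] (Fin (2 * 0 + 1) → k), (∀ x y, B x y = Λ x ⬝ᵥ (GA 0 k *ᵥ Λ y)) ∧
    ∀ x ∈ M, ∀ i, v (Λ x i) ≤ 1 := by
  obtain ⟨b, s, hs, hdet⟩ := hD
  have hd : B (b 0) (b 0) = s ^ 2 := by
    have h1 : (Matrix.of fun i j => B (b i) (b j)).det = B (b 0) (b 0) := Matrix.det_fin_one _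
    rw [← h1, hdet]
    ring
  have hform : ∀ x y, B x y = (s * b.equivFun x 0) * (s * b.equivFun y 0) := by
    intro x y
    have e1 : b.equivFun x 0 • b 0 = x := by
      rw [← sum_oneF (fun i => b.equivFun x i • b i)]
      exact b.sum_equivFun x
    have e2 : b.equivFun y 0 • b 0 = y := by
      rw [← sum_oneF (fun i => b.equivFun y i • b i)]
      exact b.sum_equivFun y
    have e3 : B x y = B (b.equivFun x 0 • b 0) (b.equivFun y 0 • b 0) := by rw [e1, e2]
    rw [e3, map_smul, map_smul, LinearMap.smul_apply, hd, smul_eq_mul, smul_eq_mul]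
    ring
  refine ⟨b.equivFun.trans (LinearEquiv.smulOfNeZero k _ s hs), ?_, ?_⟩
  · intro x y
    rw [ga_mul, sum_oneF, hform]
    rfl
  · intro x hx i
    have hi : i = 0 := Fin.ext (by have := i.2; simp only [Fin.val_zero]; omega)
    rw [hi]
    have e : (b.equivFun.trans (LinearEquiv.smulOfNeZero k _ s hs)) x 0 = s * b.equivFun x 0 := rfl
    rw [e]
    have h := hM x hx x hx
    rw [hform, map_mul, ← pow_two] at h
    exact (pow_le_one_iff (two_ne_zero)).1 h

lemma v_two_le (v : Valuation k (WithZero (Multiplicative ℤ))) : v 2 ≤ 1 := by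
  have h : (2 : k) = 1 + 1 := by norm_num
  rw [h]
  exact (v.map_add 1 1).trans (by simp)

lemma enlarge {v : Valuation k (WithZero (Multiplicative ℤ))} {π : k}
    (hπ : v π = WithZero.exp (-1 : ℤ)) (h2 : (2 : k) ≠ 0) {B : LinearMap.BilinForm k V}
    (hsym : ∀ x y, B x y = B y x) (hnd : ∀ x, (∀ y, B x y = 0) → x = 0) {M : Set V} (hM : Sub v M)
    (hI : Itg v B M) (hE : ∀ x ∈ M, v (B x x) ≤ v 2) (x₀ : V) (hx₀ : x₀ ≠ 0) (hx₀' : B x₀ x₀ = 0) :
    ∃ (c : k) (y : V) (M' : Set V), M ⊆ M' ∧ Sub v M' ∧ Itg v B M' ∧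
      (∀ x ∈ M', v (B x x) ≤ v 2) ∧ c • x₀ ∈ M' ∧ y ∈ M' ∧ B (c • x₀) y = 1 ∧ B y y = 0 := by
  classical
  obtain ⟨a, ha, hax⟩ := hM.span x₀
  obtain ⟨x₁, hx₁⟩ : ∃ x₁, x₁ = a • x₀ := ⟨_, rfl⟩
  rw [← hx₁] at hax
  have hx₁0 : x₁ ≠ 0 := by
    rw [hx₁]
    exact smul_ne_zero ha hx₀
  have hx₁1 : B x₁ x₁ = 0 := by
    rw [hx₁, map_smul, map_smul, LinearMap.smul_apply, hx₀']
    simp
  have key : ∀ y ∈ M, B x₁ y ≠ 0 → ∃ n : ℕ, v (B x₁ y) = WithZero.exp (-(n : ℤ)) := by
    intro y hy h0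
    have hne : v (B x₁ y) ≠ 0 := (Valuation.ne_zero_iff v).2 h0
    have hle := hI x₁ hax _ hy
    have hlog := WithZero.exp_log hne
    have hl0 : WithZero.log (v (B x₁ y)) ≤ 0 := by
      rw [← WithZero.exp_le_exp, hlog, WithZero.exp_zero]
      exact hle
    refine ⟨(-(WithZero.log (v (B x₁ y)))).toNat, ?_⟩
    rw [Int.toNat_of_nonneg (by omega), neg_neg, hlog]
  have hex : ∃ n : ℕ, ∃ y ∈ M, v (B x₁ y) = WithZero.exp (-(n : ℤ)) := by
    by_contra hcon
    push Not at hcon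
    apply hx₁0
    apply hnd
    intro y
    by_contra hy
    obtain ⟨a', ha', hay⟩ := hM.span y
    have hne : B x₁ (a' • y) ≠ 0 := by
      rw [map_smul, smul_eq_mul]
      exact mul_ne_zero ha' hy
    obtain ⟨n, hn⟩ := key _ hay hne
    exact hcon n _ hay hn
  obtain ⟨y₀, hy₀, hvy₀⟩ := Nat.find_spec hex
  have hmin : ∀ m : ℕ, (∃ y ∈ M, v (B x₁ y) = WithZero.exp (-(m : ℤ))) → Nat.find hex ≤ m :=
    fun m hm => Nat.find_min' hex hm
  obtain ⟨n, hn⟩ : ∃ n, n = Nat.find hex := ⟨_, rfl⟩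
  rw [← hn] at hvy₀ hmin
  have hmax : ∀ y ∈ M, v (B x₁ y) ≤ WithZero.exp (-(n : ℤ)) := by
    intro y hy
    by_cases h0 : B x₁ y = 0
    · rw [h0, map_zero]
      exact zero_le'
    · obtain ⟨m, hm⟩ := key y hy h0
      have h3 := hmin m ⟨y, hy, hm⟩
      rw [hm, WithZero.exp_le_exp]
      omega
  obtain ⟨p, hp⟩ : ∃ p, p = (π ^ n)⁻¹ := ⟨_, rfl⟩
  have hvp : v p = WithZero.exp (n : ℤ) := by
    rw [hp, map_inv₀, map_pow, hπ, ← WithZero.exp_nsmul, ← WithZero.exp_neg]
    congr 1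
    simp
  obtain ⟨x, hx⟩ : ∃ x, x = (p * a) • x₀ := ⟨_, rfl⟩
  have hx' : x = p • x₁ := by rw [hx, hx₁, mul_smul]
  have hBx : ∀ y, B x y = p * B x₁ y := by
    intro y
    rw [hx', map_smul, LinearMap.smul_apply, smul_eq_mul]
  have hBx' : ∀ y, B y x = B x y := fun y => hsym y x
  have hxx : B x x = 0 := by
    rw [hBx, hx', map_smul, hx₁1]
    simp
  have hxi : ∀ z ∈ M, v (B x z) ≤ 1 := by
    intro z hz
    rw [hBx, map_mul, hvp]
    calc WithZero.exp (n : ℤ) * v (B x₁ z) ≤ WithZero.exp (n : ℤ) * WithZero.exp (-(n : ℤ)) :=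
          mul_le_mul_right (hmax z hz) _
      _ = 1 := by rw [← WithZero.exp_add, add_neg_cancel, WithZero.exp_zero]
  have hxy₀ : v (B x y₀) = 1 := by
    rw [hBx, map_mul, hvp, hvy₀, ← WithZero.exp_add, add_neg_cancel, WithZero.exp_zero]
  have hxy₀0 : B x y₀ ≠ 0 := by
    intro h
    rw [h, map_zero] at hxy₀
    exact zero_ne_one hxy₀
  obtain ⟨y₁, hy₁⟩ : ∃ y₁, y₁ = (B x y₀)⁻¹ • y₀ := ⟨_, rfl⟩
  have hy₁M : y₁ ∈ M := by
    rw [hy₁]
    refine hM.smul _ ?_ _ hy₀
    rw [map_inv₀, hxy₀, inv_one]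
  have hxy₁ : B x y₁ = 1 := by
    rw [hy₁, map_smul, smul_eq_mul, inv_mul_cancel₀ hxy₀0]
  obtain ⟨h, hh⟩ : ∃ h, h = B y₁ y₁ / 2 := ⟨_, rfl⟩
  have hv2 : 0 < v (2 : k) := zero_lt_iff.2 ((Valuation.ne_zero_iff v).2 h2)
  have hvh : v h ≤ 1 := by
    rw [hh, map_div₀]
    exact div_le_one_of_le₀ (hE _ hy₁M) (le_of_lt hv2)
  have hh2 : B y₁ y₁ = 2 * h := by
    rw [hh]
    field_simp
  refine ⟨p * a, y₁ + (-h) • x, {w | ∃ z ∈ M, ∃ b : k, v b ≤ 1 ∧ w = z + b • x}, ?_, ?_, ?_, ?_, ?_, ?_,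
    ?_, ?_⟩
  · intro z hz
    exact ⟨z, hz, 0, by simp, by simp⟩
  · constructor
    · exact ⟨0, hM.zero, 0, by simp, by simp⟩
    · rintro _ ⟨z, hz, b, hb, rfl⟩ _ ⟨z', hz', b', hb', rfl⟩
      refine ⟨z + z', hM.add _ hz _ hz', b + b', Valuation.map_add_le v hb hb', ?_⟩
      rw [add_smul]
      abel
    · rintro c hc _ ⟨z, hz, b, hb, rfl⟩
      refine ⟨c • z, hM.smul _ hc _ hz, c * b, ?_, ?_⟩
      · rw [map_mul]
        exact mul_le_one' hc hb
      · rw [smul_add, mul_smul]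
    · intro z
      obtain ⟨c, hc, hcz⟩ := hM.span z
      exact ⟨c, hc, c • z, hcz, 0, by simp, by simp⟩
  · rintro _ ⟨z, hz, b, hb, rfl⟩ _ ⟨z', hz', b', hb', rfl⟩
    have e : B (z + b • x) (z' + b' • x) = B z z' + (b' * B x z + b * B x z') := by
      simp only [map_add, map_smul, LinearMap.add_apply, LinearMap.smul_apply, smul_eq_mul, hxx, hBx']
      ring
    rw [e]
    refine Valuation.map_add_le v (hI _ hz _ hz') (Valuation.map_add_le v ?_ ?_)
    · rw [map_mul]
      exact mul_le_one' hb' (hxi _ hz)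
    · rw [map_mul]
      exact mul_le_one' hb (hxi _ hz')
  · rintro _ ⟨z, hz, b, hb, rfl⟩
    have e : B (z + b • x) (z + b • x) = B z z + 2 * (b * B x z) := by
      simp only [map_add, map_smul, LinearMap.add_apply, LinearMap.smul_apply, smul_eq_mul, hxx, hBx']
      ring
    rw [e]
    refine Valuation.map_add_le v (hE _ hz) ?_
    rw [map_mul, map_mul]
    calc v 2 * (v b * v (B x z)) ≤ v 2 * 1 := mul_le_mul_right (mul_le_one' hb (hxi _ hz)) _
      _ = v 2 := mul_one _
  · refine ⟨0, hM.zero, 1, by simp, ?_⟩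
    rw [← hx]
    simp
  · exact ⟨y₁, hy₁M, -h, by rwa [Valuation.map_neg], rfl⟩
  · rw [← hx, map_add, map_smul, hxx, hxy₁]
    simp
  · simp only [map_add, map_smul, LinearMap.add_apply, LinearMap.smul_apply, smul_eq_mul, hxx, hBx',
      hxy₁, hh2]
    ring

/-- the isotropic subspace of the complement -/
def isoE {B : LinearMap.BilinForm k V} {X : Submodule k V} (hXX : ∀ x ∈ X, ∀ y ∈ X, B x y = 0)
    (x y : V) (hx : x ∈ X) :
    (X.comap (Vp B x y).subtype) ≃ₗ[k] LinearMap.ker ((B y).domRestrict X) where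
  toFun w := ⟨⟨w.1.1, w.2⟩, by
    rw [LinearMap.mem_ker, LinearMap.domRestrict_apply]
    exact (mem_Vp.1 w.1.2).2⟩
  invFun u := ⟨⟨u.1.1, mem_Vp.2 ⟨hXX _ hx _ u.1.2, by
    have h := u.2
    rw [LinearMap.mem_ker, LinearMap.domRestrict_apply] at h
    exact h⟩⟩, u.1.2⟩
  map_add' _ _ := rfl
  map_smul' _ _ := rfl
  left_inv _ := rfl
  right_inv _ := rfl

lemma iso_rank {g : ℕ} {B : LinearMap.BilinForm k V} [FiniteDimensional k V] {X : Submodule k V}
    (hX : Module.finrank k X = g + 1) (hXX : ∀ x ∈ X, ∀ y ∈ X, B x y = 0)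
    (x y : V) (hx : x ∈ X) (hyx : B y x = 1) :
    Module.finrank k (X.comap (Vp B x y).subtype) = g := by
  rw [(isoE hXX x y hx).finrank_eq]
  have h1 := LinearMap.finrank_range_add_finrank_ker ((B y).domRestrict X)
  have h2 : LinearMap.range ((B y).domRestrict X) = ⊤ := by
    rw [LinearMap.range_eq_top]
    intro c
    refine ⟨c • ⟨x, hx⟩, ?_⟩
    rw [map_smul, LinearMap.domRestrict_apply]
    simp only
    rw [hyx, smul_eq_mul, mul_one]
  rw [h2, finrank_top, Module.finrank_self, hX] at h1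
  omega

end lin

theorem split : S_SPLIT := by
  intro g
  induction g with
  | zero =>
    intro k _ v π hπ h2 V _ _ B hsym hD X hX hXX M hM hI hE
    exact base hD hI
  | succ g ih =>
    intro k _ v π hπ h2 V _ _ B hsym hD X hX hXX M hM hI hE
    have hnd := nondeg hsym hD
    have hfin : FiniteDimensional k V := by
      obtain ⟨b, -, -, -⟩ := hD
      exact Module.Basis.finiteDimensional_of_finite b
    have hrank : Module.finrank k V = 2 * (g + 1) + 1 := by
      obtain ⟨b, -, -, -⟩ := hD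
      rw [Module.finrank_eq_card_basis b, Fintype.card_fin]
    obtain ⟨x₀, hx₀X, hx₀⟩ : ∃ x₀ ∈ X, x₀ ≠ 0 := by
      have : X ≠ ⊥ := by
        rintro rfl
        rw [finrank_bot] at hX
        omega
      exact Submodule.exists_mem_ne_zero_of_ne_bot this
    obtain ⟨c, y, M', hMM', hM', hI', hE', hxM', hyM', hxy, hyy⟩ :=
      enlarge hπ h2 hsym hnd hM hI hE x₀ hx₀ (hXX _ hx₀X _ hx₀X)
    obtain ⟨x, hx⟩ : ∃ x, x = c • x₀ := ⟨_, rfl⟩
    rw [← hx] at hxM' hxy
    have hxX : x ∈ X := by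
      rw [hx]
      exact X.smul_mem _ hx₀X
    have hxx : B x x = 0 := hXX x hxX x hxX
    have hyx : B y x = 1 := (hsym _ _).trans hxy
    have hD' := dsc_step hsym hD x y hxx hyy hxy hyx
    obtain ⟨Λ', hΛ1, hΛ2⟩ := ih k v π hπ h2 (Vp B x y) (B.restrict (Vp B x y))
      (fun a b => hsym _ _) hD' (X.comap (Vp B x y).subtype) (iso_rank hX hXX x y hxX hyx)
      (fun a ha b hb => hXX _ ha _ hb) {z | (z : V) ∈ M'}
      ⟨hM'.zero, fun a ha b hb => hM'.add _ ha _ hb, fun c hc a ha => hM'.smul c hc _ ha,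
        fun z => hM'.span (z : V)⟩
      (fun a ha b hb => hI' _ ha _ hb) (fun a ha => hE' _ ha)
    obtain ⟨P, hP⟩ : ∃ P, P = pr B x y hxx hyy hxy hyx := ⟨_, rfl⟩
    have hPv : ∀ z, (P z : V) = z - B y z • x - B x z • y := by
      intro z
      rw [hP, pr_val]
    have hPM : ∀ z ∈ M', (P z : V) ∈ M' := by
      intro z hz
      have e : (P z : V) = z + (-(B y z)) • x + (-(B x z)) • y := by
        rw [hPv, neg_smul, neg_smul]
        abel
      rw [e]
      refine hM'.add _ (hM'.add _ hz _ (hM'.smul _ ?_ _ hxM')) _ (hM'.smul _ ?_ _ hyM')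
      · rw [Valuation.map_neg]
        exact hI' _ hyM' _ hz
      · rw [Valuation.map_neg]
        exact hI' _ hxM' _ hz
    obtain ⟨Λ, hΛ⟩ : ∃ Λ : V →ₗ[k] (Fin (2 * (g + 1) + 1) → k),
        ∀ z, Λ z = (pk (B y z) (B x z) (Λ' (P z)) : Fin (2 * (g + 1) + 1) → k) :=
      ⟨{ toFun := fun z => (pk (B y z) (B x z) (Λ' (P z)) : Fin (2 * (g + 1) + 1) → k)
         map_add' := by
          intro z w
          simp only [map_add]
          exact pk_add _ _ _ _ _ _
         map_smul' := by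
          intro c z
          simp only [map_smul, smul_eq_mul, RingHom.id_apply]
          exact pk_smul _ _ _ _ }, fun z => rfl⟩
    have hform : ∀ z w, B z w = Λ z ⬝ᵥ (GA (g + 1) k *ᵥ Λ w) := by
      intro z w
      rw [hΛ, hΛ, ga_step, ← hΛ1]
      have e : (B.restrict (Vp B x y)) (P z) (P w) = B (P z : V) (P w : V) := rfl
      rw [e, hPv, hPv]
      simp only [map_sub, map_smul, LinearMap.sub_apply, LinearMap.smul_apply, smul_eq_mul, hxx, hyy,
        hxy, hyx, hsym z x, hsym z y]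
      ring
    have hinj : Function.Injective Λ := by
      rw [← LinearMap.ker_eq_bot, LinearMap.ker_eq_bot']
      intro z hz
      apply hnd
      intro w
      rw [hform, hz, zero_dotProduct]
    have hdim : Module.finrank k V = Module.finrank k (Fin (2 * (g + 1) + 1) → k) := by
      rw [hrank, Module.finrank_fin_fun]
    refine ⟨Λ.linearEquivOfInjective hinj hdim, ?_, ?_⟩
    · intro z w
      rw [LinearMap.linearEquivOfInjective_apply, LinearMap.linearEquivOfInjective_apply]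
      exact hform z w
    · intro z hz i
      rw [LinearMap.linearEquivOfInjective_apply, hΛ]
      have hz' := hMM' hz
      have h1 : ∀ i : Fin (2 * g + 1 + 2), v (pk (B y z) (B x z) (Λ' (P z)) i) ≤ 1 := by
        intro i
        refine Fin.cases ?_ (fun j => ?_) i
        · rw [pk_zero]
          exact hI' _ hyM' _ hz'
        · refine Fin.lastCases ?_ (fun l => ?_) j
          · rw [pk_last]
            exact hI' _ hxM' _ hz'
          · rw [pk_mid]
            exact hΛ2 (P z) (hPM z hz') l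
      exact h1 i

end Pool.Agent.H294.AG458
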